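import Pool.Agent.W394.BQN.Stm

set_option autoImplicit false

open Polynomial IsLocalRing

noncomputable section

namespace Pool.Agent.W613.BQN

open Pool.Agent.W394.BQN BQ

variable (p : ℕ) [hp : Fact p.Prime] (e : ℕ) (n : ℕ)

/-- the element `z ^ e - p` -/
abbrev uu : ℤ_[p][X] := X ^ e - C (p : ℤ_[p])

/-- the ring `ℤ_p[z,x_0,...,x_n]/(x_0 ⋯ x_n - (z^e - p))` -/
abbrev DD : Type := Semi ℤ_[p][X] (uu p e) n

theorem uu_monic (he : 0 < e) : (uu p e).Monic := monic_X_pow_sub_C _ he.ne'

theorem uu_natDegree : (uu p e).natDegree = e := natDegree_X_pow_sub_C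

theorem uu_prime (he : 0 < e) : Prime (uu p e) := by
  rw [← irreducible_iff_prime]
  have hpp : Prime (p : ℤ_[p]) := PadicInt.prime_p
  have hP : (Ideal.span {(p : ℤ_[p])}).IsPrime :=
    (Ideal.span_singleton_prime hpp.ne_zero).2 hpp
  refine irreducible_of_eisenstein_criterion hP ?_ ?_ ?_ ?_ (uu_monic p e he).isPrimitive
  · rw [(uu_monic p e he).leadingCoeff]
    intro h
    exact hP.ne_top ((Ideal.eq_top_iff_one _).2 h)
  · intro k hk
    have hk2 : k < e := by
      rw [degree_X_pow_sub_C he] at hk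
      exact_mod_cast hk
    rw [coeff_sub, coeff_X_pow, if_neg hk2.ne, zero_sub, coeff_C]
    split_ifs
    · exact (Ideal.neg_mem_iff _).2 (Ideal.mem_span_singleton_self _)
    · simp
  · rw [degree_X_pow_sub_C he]
    exact_mod_cast he
  · rw [coeff_sub, coeff_X_pow, if_neg he.ne, zero_sub, coeff_C_zero, Ideal.neg_mem_iff,
      Ideal.span_singleton_pow, Ideal.mem_span_singleton]
    intro h
    have h1 : (p : ℤ_[p]) * p ∣ p * 1 := by rwa [mul_one, ← pow_two]
    have h2 := (mul_dvd_mul_iff_left hpp.ne_zero).1 h1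
    exact hpp.not_isUnit (isUnit_of_dvd_one h2)

/-- the ring `ℤ_p[z]/(z^e - p)` -/
abbrev WW : Type := ℤ_[p][X] ⧸ Ideal.span {uu p e}

theorem WW_domain (he : 0 < e) : IsDomain (WW p e) := by
  have h : (Ideal.span {uu p e}).IsPrime :=
    (Ideal.span_singleton_prime (uu_prime p e he).ne_zero).2 (uu_prime p e he)
  exact Ideal.Quotient.isDomain _

/-- the variables `x_i` -/
def xx (i : Fin (n + 1)) : DD p e n := Q.pr ℤ_[p][X] (uu p e) n (MvPolynomial.X i)

/-- the variable `z` -/
def zz : DD p e n := Q.pr ℤ_[p][X] (uu p e) n (MvPolynomial.C X)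

/-- killing the variables `x_j`, `j < i` -/
def kill (i : ℕ) (j : Fin (n + 1)) : MvPolynomial (Fin (n + 1)) (WW p e) :=
  if (j : ℕ) < i then 0 else MvPolynomial.X j

/-- for `0 ≤ i` the map `DD → WW[x_0,...,x_n]` with `x_j ↦ 0` for `j < i + 1` -/
def φ (i : ℕ) : DD p e n →+* MvPolynomial (Fin (n + 1)) (WW p e) :=
  Q.lft ℤ_[p][X] (uu p e) n (MvPolynomial.C.comp (Ideal.Quotient.mk _)) (kill p e n (i + 1)) (by
    rw [Finset.prod_eq_zero (Finset.mem_univ (0 : Fin (n + 1)))]
    · rw [RingHom.comp_apply, Ideal.Quotient.eq_zero_iff_mem.2 (Ideal.mem_span_singleton_self _),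
        map_zero]
    · simp [kill])

theorem φ_xx (i : ℕ) (j : Fin (n + 1)) : φ p e n i (xx p e n j) = kill p e n (i + 1) j :=
  Q.lft_X ℤ_[p][X] (uu p e) n _ _ _ j

theorem φ_C (i : ℕ) (v : ℤ_[p][X]) : φ p e n i (Q.pr ℤ_[p][X] (uu p e) n (MvPolynomial.C v)) =
    MvPolynomial.C (Ideal.Quotient.mk _ v) :=
  Q.lft_C ℤ_[p][X] (uu p e) n _ _ _ v

theorem φ_prime (he : 0 < e) (i : ℕ) : (RingHom.ker (φ p e n i)).IsPrime := by
  have := WW_domain p e he
  exact RingHom.ker_isPrime _

theorem φ_lt (he : 0 < e) (i : ℕ) (hi : i < n) :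
    RingHom.ker (φ p e n i) < RingHom.ker (φ p e n (i + 1)) := by
  have := WW_domain p e he
  refine lt_of_le_of_ne ?_ ?_
  · let ψ : MvPolynomial (Fin (n + 1)) (WW p e) →+* MvPolynomial (Fin (n + 1)) (WW p e) :=
      MvPolynomial.eval₂Hom MvPolynomial.C (kill p e n (i + 2))
    have h : ψ.comp (φ p e n i) = φ p e n (i + 1) := by
      refine Q.hext ℤ_[p][X] (uu p e) n (B := MvPolynomial (Fin (n + 1)) (WW p e)) ?_ ?_
      · intro v
        show ψ (φ p e n i (Q.pr ℤ_[p][X] (uu p e) n (MvPolynomial.C v))) = _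
        rw [φ_C, φ_C]
        simp [ψ]
      · intro j
        show ψ (φ p e n i (xx p e n j)) = φ p e n (i + 1) (xx p e n j)
        rw [φ_xx, φ_xx]
        by_cases h1 : (j : ℕ) < i + 1
        · simp [kill, h1, Nat.lt_succ_of_lt h1]
        · rw [kill, if_neg h1]
          simp only [ψ, MvPolynomial.coe_eval₂Hom, MvPolynomial.eval₂_X]
    intro a ha
    rw [RingHom.mem_ker] at ha ⊢
    rw [← h, RingHom.comp_apply, ha, map_zero]
  · intro h
    have h1 : xx p e n ⟨i + 1, by omega⟩ ∈ RingHom.ker (φ p e n (i + 1)) := by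
      rw [RingHom.mem_ker, φ_xx]
      simp [kill]
    rw [← h, RingHom.mem_ker, φ_xx] at h1
    have h2 : ¬ ((⟨i + 1, by omega⟩ : Fin (n + 1)) : ℕ) < i + 1 := by simp
    rw [kill, if_neg h2] at h1
    exact MvPolynomial.X_ne_zero _ h1

/-- reduction of the constant coefficient -/
def vk : ℤ_[p][X] →+* ResidueField ℤ_[p] := (residue ℤ_[p]).comp Polynomial.constantCoeff

theorem vk_uu (he : 0 < e) : vk p (uu p e) = 0 := by
  have h : residue ℤ_[p] (p : ℤ_[p]) = 0 := by
    rw [residue_eq_zero_iff, PadicInt.maximalIdeal_eq_span_p]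
    exact Ideal.mem_span_singleton_self _
  rw [vk, RingHom.comp_apply, Polynomial.constantCoeff_apply, coeff_sub, coeff_X_pow,
    if_neg he.ne, zero_sub, coeff_C_zero, map_neg, h, neg_zero]

/-- the map to the residue field at the origin -/
def χ (he : 0 < e) : DD p e n →+* ResidueField ℤ_[p] :=
  Q.lft ℤ_[p][X] (uu p e) n (vk p) (fun _ => 0) (by
    rw [Finset.prod_eq_zero (Finset.mem_univ (0 : Fin (n + 1))) rfl, vk_uu p e he])

theorem χ_xx (he : 0 < e) (j : Fin (n + 1)) : χ p e n he (xx p e n j) = 0 :=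
  Q.lft_X ℤ_[p][X] (uu p e) n _ _ _ j

theorem χ_C (he : 0 < e) (v : ℤ_[p][X]) :
    χ p e n he (Q.pr ℤ_[p][X] (uu p e) n (MvPolynomial.C v)) = vk p v :=
  Q.lft_C ℤ_[p][X] (uu p e) n _ _ _ v

/-- the prime ideal `(z,x_0,...,x_n)` -/
def q (he : 0 < e) : Ideal (DD p e n) := RingHom.ker (χ p e n he)

instance q_prime (he : 0 < e) : (q p e n he).IsPrime := RingHom.ker_isPrime _

theorem prod_xx : ∏ i, xx p e n i = zz p e n ^ e - (p : DD p e n) := by
  have h := Q.pr_prod ℤ_[p][X] (uu p e) n
  have h2 : Q.pr ℤ_[p][X] (uu p e) n (MvPolynomial.C (uu p e)) =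
      zz p e n ^ e - (p : DD p e n) := by
    simp [zz, uu]
  rw [← h2]
  exact h

theorem φ_lt_q (he : 0 < e) : RingHom.ker (φ p e n n) < q p e n he := by
  have := WW_domain p e he
  refine lt_of_le_of_ne ?_ ?_
  · let wk : WW p e →+* ResidueField ℤ_[p] := Ideal.Quotient.lift _ (vk p) (by
      intro a ha
      obtain ⟨c, rfl⟩ := Ideal.mem_span_singleton.1 ha
      rw [map_mul, vk_uu p e he, zero_mul])
    let ψ : MvPolynomial (Fin (n + 1)) (WW p e) →+* ResidueField ℤ_[p] :=
      MvPolynomial.eval₂Hom wk (fun _ => 0)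
    have h : ψ.comp (φ p e n n) = χ p e n he := by
      refine Q.hext ℤ_[p][X] (uu p e) n ?_ ?_
      · intro v
        show ψ (φ p e n n (Q.pr ℤ_[p][X] (uu p e) n (MvPolynomial.C v))) = _
        rw [φ_C, χ_C]
        simp [ψ, wk]
      · intro j
        show ψ (φ p e n n (xx p e n j)) = χ p e n he (xx p e n j)
        rw [φ_xx, χ_xx]
        have : (j : ℕ) < n + 1 := j.2
        simp [kill, this]
    intro a ha
    rw [RingHom.mem_ker] at ha
    show χ p e n he a = 0
    rw [← h, RingHom.comp_apply, ha, map_zero]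
  · intro h
    have h1 : Q.pr ℤ_[p][X] (uu p e) n (MvPolynomial.C (C (p : ℤ_[p]))) ∈ q p e n he := by
      show χ p e n he _ = 0
      rw [χ_C, vk, RingHom.comp_apply, Polynomial.constantCoeff_apply, coeff_C_zero,
        residue_eq_zero_iff, PadicInt.maximalIdeal_eq_span_p]
      exact Ideal.mem_span_singleton_self _
    rw [← h, RingHom.mem_ker, φ_C] at h1
    have h2 : (Ideal.Quotient.mk (Ideal.span {uu p e}) (C (p : ℤ_[p])) : WW p e) = 0 :=
      MvPolynomial.C_injective _ _ (by rw [h1, map_zero])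
    rw [Ideal.Quotient.eq_zero_iff_mem, Ideal.mem_span_singleton] at h2
    have hpp : Prime (p : ℤ_[p]) := PadicInt.prime_p
    refine (uu_monic p e he).not_dvd_of_natDegree_lt (C_ne_zero.2 hpp.ne_zero) ?_ h2
    rw [natDegree_C, uu_natDegree]
    exact he

theorem xx_mem (he : 0 < e) (j : Fin (n + 1)) : xx p e n j ∈ q p e n he := χ_xx p e n he j

theorem zz_mem (he : 0 < e) : zz p e n ∈ q p e n he := by
  show χ p e n he (Q.pr ℤ_[p][X] (uu p e) n (MvPolynomial.C X)) = 0
  rw [χ_C, vk, RingHom.comp_apply, Polynomial.constantCoeff_apply, coeff_X_zero, map_zero]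

theorem span_le_q (he : 0 < e) :
    Ideal.span (Set.range (xx p e n) ∪ {zz p e n}) ≤ q p e n he := by
  rw [Ideal.span_le]
  rintro a (⟨j, rfl⟩ | ha)
  · exact xx_mem p e n he j
  · rw [Set.mem_singleton_iff.1 ha]
    exact zz_mem p e n he

theorem p_mem (he : 0 < e) :
    (p : DD p e n) ∈ Ideal.span (Set.range (xx p e n) ∪ {zz p e n}) := by
  have h : (p : DD p e n) = zz p e n ^ e - ∏ i, xx p e n i := by rw [prod_xx]; ring
  rw [h]
  refine Ideal.sub_mem _ ?_ ?_
  · exact Ideal.pow_mem_of_mem (Ideal.span (Set.range (xx p e n) ∪ {zz p e n}))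
      (Ideal.subset_span (Set.mem_union_right _ (Set.mem_singleton _))) e he
  · exact Ideal.mem_of_dvd (Ideal.span (Set.range (xx p e n) ∪ {zz p e n}))
      (Finset.dvd_prod_of_mem (xx p e n) (Finset.mem_univ (0 : Fin (n + 1))))
      (Ideal.subset_span (Set.mem_union_left _ ⟨0, rfl⟩))

theorem q_eq (he : 0 < e) : q p e n he = Ideal.span (Set.range (xx p e n) ∪ {zz p e n}) := by
  apply le_antisymm
  · intro a ha
    obtain ⟨f, rfl⟩ : ∃ f, Q.pr ℤ_[p][X] (uu p e) n f = a := Ideal.Quotient.mk_surjective a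
    -- modulo the span, `f` is its constant coefficient
    have h1 : ∀ f : MvPolynomial (Fin (n + 1)) ℤ_[p][X],
        Q.pr ℤ_[p][X] (uu p e) n f -
          Q.pr ℤ_[p][X] (uu p e) n (MvPolynomial.C (MvPolynomial.constantCoeff f)) ∈
          Ideal.span (Set.range (xx p e n) ∪ {zz p e n}) := by
      intro f
      induction f using MvPolynomial.induction_on with
      | C a => simp
      | add f g hf hg =>
        have := Ideal.add_mem _ hf hg
        have eq1 : Q.pr ℤ_[p][X] (uu p e) n (f + g) -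
            Q.pr ℤ_[p][X] (uu p e) n (MvPolynomial.C (MvPolynomial.constantCoeff (f + g))) =
          (Q.pr ℤ_[p][X] (uu p e) n f -
            Q.pr ℤ_[p][X] (uu p e) n (MvPolynomial.C (MvPolynomial.constantCoeff f))) +
          (Q.pr ℤ_[p][X] (uu p e) n g -
            Q.pr ℤ_[p][X] (uu p e) n (MvPolynomial.C (MvPolynomial.constantCoeff g))) := by
          simp only [map_add]; ring
        rw [eq1]
        exact this
      | mul_X f i hf =>
        simp only [map_mul, MvPolynomial.constantCoeff_X, mul_zero, map_zero, sub_zero]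
        exact Ideal.mul_mem_left _ _ (Ideal.subset_span (Or.inl ⟨i, rfl⟩))
    have h1' : ∀ v : ℤ_[p][X], Q.pr ℤ_[p][X] (uu p e) n (MvPolynomial.C v) -
        Q.pr ℤ_[p][X] (uu p e) n (MvPolynomial.C (C (v.coeff 0))) ∈
          Ideal.span (Set.range (xx p e n) ∪ {zz p e n}) := by
      intro v
      have e1 : v - C (v.coeff 0) = v.divX * X := by
        conv_lhs => rw [← Polynomial.divX_mul_X_add v]
        simp
      rw [← map_sub, ← map_sub, e1, map_mul, map_mul]
      exact Ideal.mul_mem_left _ _ (Ideal.subset_span (Or.inr rfl))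
    set v := MvPolynomial.constantCoeff f with hv
    have h2 : Q.pr ℤ_[p][X] (uu p e) n f -
        Q.pr ℤ_[p][X] (uu p e) n (MvPolynomial.C (C (v.coeff 0))) ∈
          Ideal.span (Set.range (xx p e n) ∪ {zz p e n}) := by
      have := Ideal.add_mem _ (h1 f) (h1' v)
      rwa [← hv, sub_add_sub_cancel] at this
    -- the constant coefficient is divisible by `p`
    have h3 : χ p e n he
        (Q.pr ℤ_[p][X] (uu p e) n (MvPolynomial.C (C (v.coeff 0)))) = 0 := by
      have h4 := span_le_q p e n he h2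
      have h5 := Ideal.sub_mem _ ha h4
      rw [sub_sub_cancel] at h5
      exact h5
    rw [χ_C, vk, RingHom.comp_apply, Polynomial.constantCoeff_apply, coeff_C_zero,
      residue_eq_zero_iff, PadicInt.maximalIdeal_eq_span_p, Ideal.mem_span_singleton] at h3
    obtain ⟨c, hc⟩ := h3
    have h6 : Q.pr ℤ_[p][X] (uu p e) n (MvPolynomial.C (C (v.coeff 0))) ∈
        Ideal.span (Set.range (xx p e n) ∪ {zz p e n}) := by
      rw [hc, map_mul, map_mul, map_mul]
      refine Ideal.mul_mem_right _ _ ?_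
      have h7 : Q.pr ℤ_[p][X] (uu p e) n (MvPolynomial.C (C (p : ℤ_[p]))) = (p : DD p e n) := by
        simp
      rw [h7]
      exact p_mem p e n he
    have h8 := Ideal.add_mem _ h2 h6
    rw [sub_add_cancel] at h8
    exact h8
  · exact span_le_q p e n he

theorem charZero_DD : CharZero (DD p e n) := by
  let f : DD p e n →+* ℤ_[p][X] := Q.lft ℤ_[p][X] (uu p e) n (RingHom.id _)
    (fun i => if i = 0 then uu p e else 1)
    (by rw [Finset.prod_ite_eq' Finset.univ (0 : Fin (n + 1)) (fun _ => uu p e)]; simp)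
  refine ⟨fun a b h => ?_⟩
  have h1 := congrArg f h
  simpa using h1

theorem height_ge (he : 0 < e) (i : ℕ) (hi : i ≤ n) :
    ((i + 1 : ℕ) : ℕ∞) ≤ (RingHom.ker (φ p e n i)).height := by
  have hpr : Prime (uu p e) := uu_prime p e he
  have : IsDomain (DD p e n) := semi_isDomain (uu p e) hpr n
  have hpi : ∀ i, (RingHom.ker (φ p e n i)).IsPrime := φ_prime p e n he
  induction i with
  | zero =>
    have hlt : (⊥ : Ideal (DD p e n)) < RingHom.ker (φ p e n 0) := by
      refine lt_of_le_of_ne bot_le ?_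
      intro h
      have h1 : xx p e n 0 ∈ RingHom.ker (φ p e n 0) := by
        rw [RingHom.mem_ker, φ_xx]
        simp [kill]
      rw [← h, Ideal.mem_bot] at h1
      have h2 := Q.pr_prod ℤ_[p][X] (uu p e) n
      have h2' : ∏ i, xx p e n i = Q.pr ℤ_[p][X] (uu p e) n (MvPolynomial.C (uu p e)) := h2
      rw [Finset.prod_eq_zero (Finset.mem_univ (0 : Fin (n + 1))) h1] at h2'
      -- contradiction with `u ≠ 0`
      let f : DD p e n →+* ℤ_[p][X] := Q.lft ℤ_[p][X] (uu p e) n (RingHom.id _)
        (fun i => if i = 0 then uu p e else 1)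
        (by rw [Finset.prod_ite_eq' Finset.univ (0 : Fin (n + 1)) (fun _ => uu p e)]; simp)
      have h3 : f (Q.pr ℤ_[p][X] (uu p e) n (MvPolynomial.C (uu p e))) = uu p e :=
        Q.lft_C ℤ_[p][X] (uu p e) n _ _ _ _
      rw [← h2', map_zero] at h3
      exact hpr.ne_zero h3.symm
    have := hpi 0
    have h1 := Ideal.height_add_one_le_of_lt_of_isPrime hlt
    refine le_trans ?_ h1
    simp
  | succ i ih =>
    have := hpi i
    have := hpi (i + 1)
    have h1 := Ideal.height_add_one_le_of_lt_of_isPrime (φ_lt p e n he i (by omega))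
    refine le_trans ?_ h1
    have h2 := ih (by omega)
    push_cast at h2 ⊢
    exact add_le_add h2 le_rfl

theorem height_q (he : 0 < e) : (q p e n he).height = ((n + 2 : ℕ) : ℕ∞) := by
  apply le_antisymm
  · refine le_trans (Ideal.height_le_spanFinrank (q p e n he) (q_prime p e n he).ne_top) ?_
    have h1 := Submodule.spanFinrank_span_le_ncard_of_finite (R := DD p e n)
      (s := Set.range (xx p e n) ∪ {zz p e n}) ((Set.finite_range _).union (Set.finite_singleton _))
    have h2 : (Set.range (xx p e n)).ncard ≤ n + 1 := by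
      have h3 := Set.ncard_image_le (f := xx p e n) (s := Set.univ) Set.finite_univ
      rw [Set.image_univ, Set.ncard_univ, Nat.card_eq_fintype_card, Fintype.card_fin] at h3
      exact h3
    have h3 : (Set.range (xx p e n) ∪ {zz p e n}).ncard ≤ n + 2 := by
      refine le_trans (Set.ncard_union_le _ _) ?_
      rw [Set.ncard_singleton]
      omega
    rw [q_eq]
    exact_mod_cast le_trans h1 h3
  · have := φ_prime p e n he n
    have h1 := Ideal.height_add_one_le_of_lt_of_isPrime (φ_lt_q p e n he)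
    refine le_trans ?_ h1
    have h2 := height_ge p e n he n le_rfl
    have h3 : ((n + 2 : ℕ) : ℕ∞) = ((n + 1 : ℕ) : ℕ∞) + 1 := by push_cast; ring
    rw [h3]
    exact add_le_add h2 le_rfl

theorem aux_map {S T : Type} [CommRing S] [CommRing T] (f : S →+* T) (p e n : ℕ)
    (x : Fin (n + 1) → S) (z : S) (h : (p : S) = z ^ e - ∏ i, x i) :
    (p : T) = f z ^ e - ∏ i, f (x i) := by
  rw [← map_natCast f, h, map_sub, map_pow, map_prod]

theorem t_DIM : S_DIM := by
  intro p hp e he n
  have hpr : Prime (uu p e) := uu_prime p e he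
  have hdom : IsDomain (DD p e n) := semi_isDomain (uu p e) hpr n
  have h0 : CharZero (DD p e n) := charZero_DD p e n
  refine ⟨q p e n he, q_prime p e n he, charZero_loc _, ?_,
    fun i => algebraMap _ _ (xx p e n i), algebraMap _ _ (zz p e n), ?_, ?_⟩
  · refine (IsLocalization.AtPrime.ringKrullDim_eq_height (q p e n he)
      (Localization.AtPrime (q p e n he))).trans ?_
    rw [height_q]
    rfl
  · refine (Localization.AtPrime.map_eq_maximalIdeal (I := q p e n he)).symm.trans ?_
    refine (congrArg (Ideal.map (algebraMap (DD p e n) (Localization.AtPrime (q p e n he))))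
      (q_eq p e n he)).trans ?_
    refine (Ideal.map_span _ _).trans ?_
    rw [Set.image_union, Set.image_singleton, ← Set.range_comp]
    rfl
  · have h1 : (p : DD p e n) = zz p e n ^ e - ∏ i, xx p e n i := by rw [prod_xx]; ring
    exact aux_map (S := DD p e n) (T := Localization.AtPrime (q p e n he))
      (algebraMap _ _) p e n _ _ h1

end Pool.Agent.W613.BQN
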